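import Pool.Agent.H43.WB.B3
import Pool.Agent.H43.WB.Cas

/-!
# Fields with `w`-invariant at least four

For a real field `k` with sums of squares `a ≠ 0`, `b` such that `⟨1, a, -b⟩` is anisotropic, the
form `⟨(u+1)(u-2), b(1+ax²)(u-1)(u-2), -3(1+az²)u(u-1), b u(u+1)⟩` over `k(u)(x)(z)` is minimal
weakly isotropic, so that `w(k(u)(x)(z)) ≥ 4`. The case `a = 1` is in the library
(`WInvariantAboveThree`); the proof follows it.
-/

set_option autoImplicit false

open Polynomial

universe u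

namespace Pool.Agent.Results.MP_2416ca_nt.WAtLeastFourGeneral

open Pool.Agent.L0.W4 Pool.Agent.H43.WB

section defs

variable {K : Type u} [Field K]

/-- The quadratic form `φ` on `K^d` is regular: its associated bilinear form
`φ(x + y) - φ(x) - φ(y)` is non-degenerate. -/
def Regular {d : ℕ} (φ : QuadraticForm K (Fin d → K)) : Prop :=
  ∀ x, (∀ y, QuadraticMap.polar φ x y = 0) → x = 0

/-- `n × φ`, the orthogonal sum of `n` copies of `φ`. -/
def copies (n : ℕ) {d : ℕ} (φ : QuadraticForm K (Fin d → K)) :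
    QuadraticForm K (Fin n → Fin d → K) :=
  QuadraticMap.pi fun _ => φ

/-- `φ` is weakly isotropic: `n × φ` has a nonzero zero for some `n`. -/
def WeaklyIsotropic {d : ℕ} (φ : QuadraticForm K (Fin d → K)) : Prop :=
  ∃ n : ℕ, ∃ x : Fin n → Fin d → K, x ≠ 0 ∧ copies n φ x = 0

/-- `ψ` is a subform of `φ`: `φ` is isometric to `ψ ⊥ χ` for some form `χ`. -/
def IsSubform {e d : ℕ} (ψ : QuadraticForm K (Fin e → K)) (φ : QuadraticForm K (Fin d → K)) :
    Prop :=
  ∃ (f : ℕ) (χ : QuadraticForm K (Fin f → K)), φ.Equivalent (ψ.prod χ)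

/-- `φ` is minimal weakly isotropic: it is weakly isotropic and none of its proper subforms is. -/
def MinimalWeaklyIsotropic {d : ℕ} (φ : QuadraticForm K (Fin d → K)) : Prop :=
  WeaklyIsotropic φ ∧
    ∀ (e : ℕ) (ψ : QuadraticForm K (Fin e → K)), IsSubform ψ φ → e < d → ¬ WeaklyIsotropic ψ

variable (K) in
/-- The `w`-invariant of `K`: the supremum in `ℕ ∪ {∞}` of the dimensions of the (regular) minimal
weakly isotropic forms over `K`. -/
noncomputable def wInv : ℕ∞ :=
  sSup {d : ℕ∞ | ∃ (m : ℕ) (φ : QuadraticForm K (Fin m → K)),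
    d = m ∧ Regular φ ∧ MinimalWeaklyIsotropic φ}

variable (K) in
/-- The rational function field `K(u)(x)(z)` in three variables. -/
def Rat3 : Type u := RatFunc (RatFunc (RatFunc K))

noncomputable instance : Field (Rat3 K) := inferInstanceAs (Field (RatFunc (RatFunc (RatFunc K))))

variable (K) in
/-- The variable `u` of `K(u)(x)(z)`. -/
noncomputable def varU : Rat3 K :=
  (RatFunc.C (RatFunc.C (RatFunc.X : RatFunc K)) : RatFunc (RatFunc (RatFunc K)))

variable (K) in
/-- The variable `x` of `K(u)(x)(z)`. -/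
noncomputable def varX : Rat3 K :=
  (RatFunc.C (RatFunc.X : RatFunc (RatFunc K)) : RatFunc (RatFunc (RatFunc K)))

variable (K) in
/-- The variable `z` of `K(u)(x)(z)`. -/
noncomputable def varZ : Rat3 K := (RatFunc.X : RatFunc (RatFunc (RatFunc K)))

/-- The constant `a ∈ K` as an element of `K(u)(x)(z)`. -/
noncomputable def cst (a : K) : Rat3 K :=
  (RatFunc.C (RatFunc.C (RatFunc.C a : RatFunc K)) : RatFunc (RatFunc (RatFunc K)))

/-- The coefficients of the form
`⟨(u+1)(u-2), b(u-1)(u-2)(1+ax²), -3u(u-1)(1+az²), b u(u+1)⟩`. -/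
noncomputable def coef (a b : K) : Fin 4 → Rat3 K :=
  ![(varU K + 1) * (varU K - 2),
    cst b * ((varU K - 1) * (varU K - 2)) * (1 + cst a * varX K ^ 2),
    -(3 * (varU K * (varU K - 1))) * (1 + cst a * varZ K ^ 2),
    cst b * (varU K * (varU K + 1))]

end defs

section lemmas

variable {K : Type u} [Field K]

theorem copies_apply (n : ℕ) {d : ℕ} (φ : QuadraticForm K (Fin d → K)) (x : Fin n → Fin d → K) :
    copies n φ x = ∑ k, φ (x k) := by
  rw [copies, QuadraticMap.pi_apply]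

/-- `t` is represented by some multiple of `φ`, at a nonzero vector -/
def Rep {d : ℕ} (φ : QuadraticForm K (Fin d → K)) (t : K) : Prop :=
  ∃ n : ℕ, ∃ x : Fin n → Fin d → K, x ≠ 0 ∧ ∑ k, φ (x k) = t

theorem Rep.add {d : ℕ} {φ : QuadraticForm K (Fin d → K)} {s t : K} (hs : Rep φ s)
    (ht : Rep φ t) : Rep φ (s + t) := by
  obtain ⟨m, x, hx, rfl⟩ := hs
  obtain ⟨n, y, -, rfl⟩ := ht
  refine ⟨m + n, Fin.append x y, ?_, ?_⟩
  · intro h
    apply hx
    funext i
    have := congrFun h (Fin.castAdd n i)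
    simpa using this
  · rw [Fin.sum_univ_add]
    simp

theorem Rep.single {d : ℕ} {φ : QuadraticForm K (Fin d → K)} {x : Fin d → K} (hx : x ≠ 0) :
    Rep φ (φ x) :=
  ⟨1, fun _ => x, fun h => hx (congrFun h 0), by simp⟩

theorem Rep.mul {d : ℕ} {φ : QuadraticForm K (Fin d → K)} {x : Fin d → K} (hx : x ≠ 0) {s : K}
    (hs : IsSumSq s) : s = 0 ∨ Rep φ (s * φ x) := by
  induction hs with
  | zero => exact Or.inl rfl
  | sq_add a hs ih =>
    by_cases ha : a = 0
    · rw [ha, mul_zero, zero_add]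
      exact ih
    · right
      have h1 : Rep φ (a * a * φ x) := by
        have := Rep.single (φ := φ) (x := a • x) (smul_ne_zero ha hx)
        rwa [QuadraticMap.map_smul, smul_eq_mul] at this
      rcases ih with h | h
      · rw [h, add_zero]
        exact h1
      · rw [add_mul]
        exact h1.add h

/-- `−1` is not a sum of squares -/
theorem rl_of_not (h : ¬ IsSumSq (-1 : K)) : Rl K := by
  intro a b ha hb hab
  by_contra ha0
  apply h
  have hb' : b = -a := by linear_combination hab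
  have : (-1 : K) = b * a * (a⁻¹ * a⁻¹) := by
    rw [hb']
    field_simp
  rw [this]
  exact (hb.mul ha).mul (IsSumSq.mul_self _)

theorem charZero_of_rl (h : Rl K) : CharZero K := by
  refine charZero_of_inj_zero fun n hn => ?_
  by_contra hn0
  obtain ⟨m, rfl⟩ := Nat.exists_eq_succ_of_ne_zero hn0
  have := h 1 m IsSumSq.one (IsSumSq.natCast m) (by
    push_cast at hn
    linear_combination hn)
  exact one_ne_zero this

end lemmas

section form

theorem sumSq_map {A B : Type*} [Field A] [Semiring B] (f : A →+* B) {s : A} (hs : IsSumSq s) :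
    IsSumSq (f s) := by
  induction hs with
  | zero => rw [map_zero]; exact IsSumSq.zero
  | sq_add a hs ih =>
    rw [map_add, map_mul]
    exact IsSumSq.sq_add _ ih

variable {k K : Type u} [Field k] [Field K]

/-- the coefficients of the form -/
noncomputable def cf (f : k[X] →+* K) (β : Fin 4 → K) (d c : k) (i : Fin 4) : K :=
  f (Gp c i) * (1 ^ 2 + f (C d) * β i ^ 2)

/-- the form -/
noncomputable def theForm (f : k[X] →+* K) (β : Fin 4 → K) (d c : k) :
    QuadraticForm K (Fin 4 → K) :=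
  QuadraticMap.weightedSumSquares K (cf f β d c)

variable (f : k[X] →+* K) (hf : Function.Injective f) (β : Fin 4 → K) (d c : k)

theorem theForm_apply (v : Fin 4 → K) : theForm f β d c v = ∑ i, cf f β d c i * v i ^ 2 := by
  rw [theForm, QuadraticMap.weightedSumSquares_apply]
  exact Finset.sum_congr rfl fun i _ => by rw [smul_eq_mul, sq]

variable {β}

theorem sg_ne {d : k} (hds : IsSumSq d) (hRK : Rl K) (i : Fin 4) :
    (1 ^ 2 + f (C d) * β i ^ 2 : K) ≠ 0 := by
  intro h
  have := hRK (1 ^ 2) (f (C d) * β i ^ 2) (by rw [sq]; exact IsSumSq.mul_self _)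
    ((sumSq_map (f.comp C) hds).mul (by rw [sq]; exact IsSumSq.mul_self _)) h
  rw [one_pow] at this
  exact one_ne_zero this

theorem Gp_ne [CharZero k] {c : k} (hc0 : c ≠ 0) (i : Fin 4) : Gp c i ≠ 0 := by
  have h1 : (X : k[X]) ≠ 0 := X_ne_zero
  have h2 : (X - 1 : k[X]) ≠ 0 := X_sub_C_ne_zero 1
  have h3 : (X - 2 : k[X]) ≠ 0 := X_sub_C_ne_zero 2
  have h4 : (X + 1 : k[X]) ≠ 0 := by
    have := X_sub_C_ne_zero (-1 : k)
    rwa [map_neg, map_one, sub_neg_eq_add] at this
  have h5 : (3 : k[X]) ≠ 0 := by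
    have : (3 : k[X]) = C 3 := (map_ofNat C 3).symm
    rw [this, ne_eq, C_eq_zero]
    norm_num
  have h6 : (C c : k[X]) ≠ 0 := by rwa [ne_eq, C_eq_zero]
  fin_cases i
  · exact mul_ne_zero h4 h3
  · exact mul_ne_zero h6 (mul_ne_zero h2 h3)
  · exact neg_ne_zero.2 (mul_ne_zero h5 (mul_ne_zero h1 h2))
  · exact mul_ne_zero h6 (mul_ne_zero h1 h4)

include hf in
theorem cf_ne [CharZero k] (hRK : Rl K) {d c : k} (hds : IsSumSq d) (hc0 : c ≠ 0) (i : Fin 4) : cf f β d c i ≠ 0 := by
  refine mul_ne_zero ?_ (sg_ne f hds hRK i)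
  rw [ne_eq, map_eq_zero_iff _ hf]
  exact Gp_ne hc0 i

include hf in
theorem regular_theForm [CharZero k] (hRK : Rl K) {d c : k} (hds : IsSumSq d) (hc0 : c ≠ 0) :
    Regular (theForm f β d c) := by
  classical
  have hch := charZero_of_rl hRK
  intro x hx
  funext i
  have h := hx (Pi.single i 1)
  rw [QuadraticMap.polar, theForm_apply, theForm_apply, theForm_apply, ← Finset.sum_sub_distrib,
    ← Finset.sum_sub_distrib, Finset.sum_eq_single i] at h
  · simp only [Pi.add_apply, Pi.single_eq_same] at h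
    have h1 : cf f β d c i * (2 * x i) = 0 := by linear_combination h
    have h2 := (mul_eq_zero.1 h1).resolve_left (cf_ne f hf hRK hds hc0 i)
    exact (mul_eq_zero.1 h2).resolve_left two_ne_zero
  · intro j _ hj
    simp [hj]
  · simp

theorem theForm_single (d c : k) (i : Fin 4) : theForm f β d c (Pi.single i 1) = cf f β d c i := by
  classical
  rw [theForm_apply, Finset.sum_eq_single i]
  · simp
  · intro j _ hj
    simp [hj]
  · simp

include hf in
theorem weaklyIsotropic_theForm (hRK : Rl K) {d c : k} (hds : IsSumSq d) (hcs : IsSumSq c)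
    (hc0 : c ≠ 0) : WeaklyIsotropic (theForm f β d c) := by
  classical
  -- the sum-of-squares multipliers
  let γ : Fin 4 → K := ![1, f (C c), 1, f (C c)]
  have hfc : f (C c) ≠ 0 := by
    rw [ne_eq, map_eq_zero_iff _ hf, C_eq_zero]
    exact hc0
  have hγs : ∀ i, IsSumSq (γ i) := by
    intro i
    have h1 : IsSumSq (f (C c)) := sumSq_map (f.comp C) hcs
    fin_cases i
    · exact IsSumSq.one
    · exact h1
    · exact IsSumSq.one
    · exact h1
  have hγ0 : ∀ i, γ i ≠ 0 := by
    intro i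
    fin_cases i
    · exact one_ne_zero
    · exact hfc
    · exact one_ne_zero
    · exact hfc
  have hs : ∀ i, IsSumSq ((γ i * (1 ^ 2 + f (C d) * β i ^ 2)) * ((γ i * (1 ^ 2 + f (C d) * β i ^ 2))⁻¹ *
      (γ i * (1 ^ 2 + f (C d) * β i ^ 2))⁻¹)) := by
    intro i
    refine IsSumSq.mul (IsSumSq.mul (hγs i) ?_) (IsSumSq.mul_self _)
    rw [sq, sq]
    exact (IsSumSq.mul_self _).add ((sumSq_map (f.comp C) hds).mul (IsSumSq.mul_self _))
  have hrep : ∀ i, Rep (theForm f β d c) (f (Gp c i) / γ i) := by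
    intro i
    have hne : γ i * (1 ^ 2 + f (C d) * β i ^ 2) ≠ 0 := mul_ne_zero (hγ0 i) (sg_ne f hds hRK i)
    have hx : (Pi.single i 1 : Fin 4 → K) ≠ 0 := by
      intro h
      have := congrFun h i
      simp at this
    have h1 := (Rep.mul (φ := theForm f β d c) hx (hs i)).resolve_left (by
      rw [← mul_assoc, mul_inv_cancel₀ hne, one_mul]
      exact inv_ne_zero hne)
    rw [theForm_single] at h1
    have h2 : γ i * (1 ^ 2 + f (C d) * β i ^ 2) * ((γ i * (1 ^ 2 + f (C d) * β i ^ 2))⁻¹ *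
        (γ i * (1 ^ 2 + f (C d) * β i ^ 2))⁻¹) * cf f β d c i = f (Gp c i) / γ i := by
      rw [cf]
      have h3 := hγ0 i
      have h4 := sg_ne (β := β) f hds hRK i
      generalize (1 ^ 2 + f (C d) * β i ^ 2 : K) = s at h4
      field_simp
    rwa [h2] at h1
  have h4 := (((hrep 0).add (hrep 1)).add (hrep 2)).add (hrep 3)
  have hsum : f (Gp c 0) / γ 0 + f (Gp c 1) / γ 1 + f (Gp c 2) / γ 2 + f (Gp c 3) / γ 3 = 0 := by
    have e0 : f (Gp c 0) = f ((X + 1) * (X - 2)) := rfl
    have e1 : f (Gp c 1) = f (C c * ((X - 1) * (X - 2))) := rfl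
    have e2 : f (Gp c 2) = f (-(3 * (X * (X - 1)))) := rfl
    have e3 : f (Gp c 3) = f (C c * (X * (X + 1))) := rfl
    have g0 : γ 0 = 1 := rfl
    have g1 : γ 1 = f (C c) := rfl
    have g2 : γ 2 = 1 := rfl
    have g3 : γ 3 = f (C c) := rfl
    rw [e0, e1, e2, e3, g0, g1, g2, g3, map_mul _ (C c), map_mul _ (C c),
      mul_div_cancel_left₀ _ hfc, mul_div_cancel_left₀ _ hfc, div_one, div_one, ← map_add,
      ← map_add, ← map_add, map_eq_zero_iff _ hf]
    ring
  rw [hsum] at h4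
  obtain ⟨n, x, hx, h5⟩ := h4
  exact ⟨n, x, hx, by rw [copies_apply, h5]⟩

include hf in
/-- if the coordinates of weak zeros are linearly independent then the form is minimal -/
theorem minimal_theForm (hRK : Rl K) {d c : k} (hds : IsSumSq d) (hcs : IsSumSq c)
    (hc0 : c ≠ 0)
    (hind : ∀ (n : ℕ) (V : Fin 4 → Fin n → K), (∃ i j, V i j ≠ 0) →
      ∑ i, f (Gp c i) * (1 ^ 2 + f (C d) * β i ^ 2) * ∑ j, V i j ^ 2 = 0 →
      ∀ p : Fin 4 → K, (∃ i, p i ≠ 0) → (∀ j, ∑ i, p i * V i j = 0) → False) :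
    MinimalWeaklyIsotropic (theForm f β d c) := by
  classical
  refine ⟨weaklyIsotropic_theForm f hf hRK hds hcs hc0, ?_⟩
  rintro e ψ ⟨l, χ, ⟨i⟩⟩ hed ⟨n, x, hx, hx0⟩
  rw [copies_apply] at hx0
  let T : (Fin e → K) →ₗ[K] (Fin 4 → K) :=
    i.symm.toLinearEquiv.toLinearMap ∘ₗ LinearMap.inl K (Fin e → K) (Fin l → K)
  have hT : ∀ v, theForm f β d c (T v) = ψ v := by
    intro v
    have h1 : theForm f β d c (i.symm (v, 0)) = (ψ.prod χ) (v, 0) := i.symm.map_app _
    have h2 : T v = i.symm (v, 0) := rfl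
    rw [h2, h1, QuadraticMap.prod_apply]
    simp
  have hTinj : Function.Injective T := by
    intro a b hab
    have h1 : i.symm (a, 0) = i.symm (b, 0) := hab
    have h2 := i.symm.toLinearEquiv.injective h1
    exact congrArg Prod.fst h2
  have hns : LinearMap.range T < ⊤ := by
    rw [lt_top_iff_ne_top]
    intro h
    have h1 : Function.Surjective T := LinearMap.range_eq_top.1 h
    have h2 := LinearMap.finrank_le_finrank_of_surjective h1
    rw [Module.finrank_fin_fun, Module.finrank_fin_fun] at h2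
    omega
  obtain ⟨g, hg0, hg⟩ := Submodule.exists_le_ker_of_lt_top (LinearMap.range T) hns
  have hgsum : ∀ v : Fin 4 → K, g v = ∑ i, g (Pi.single i 1) * v i := by
    intro v
    conv_lhs => rw [LinearMap.pi_apply_eq_sum_univ g v]
    refine Finset.sum_congr rfl fun i _ => ?_
    rw [smul_eq_mul, mul_comm]
    congr 2
    funext j
    rw [Pi.single_apply]
    simp [eq_comm]
  refine hind n (fun i j => T (x j) i) ?_ ?_ (fun i => g (Pi.single i 1)) ?_ ?_
  · by_contra hcon
    push Not at hcon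
    apply hx
    funext j
    apply hTinj
    rw [Pi.zero_apply, map_zero]
    exact funext fun i => hcon i j
  · have h1 : ∑ j, theForm f β d c (T (x j)) = 0 := by
      rw [← hx0]
      exact Finset.sum_congr rfl fun j _ => hT _
    rw [← h1]
    simp only [theForm_apply]
    rw [Finset.sum_comm]
    refine Finset.sum_congr rfl fun i _ => ?_
    rw [Finset.mul_sum]
    rfl
  · by_contra hcon
    push Not at hcon
    apply hg0
    refine LinearMap.ext fun v => ?_
    rw [hgsum]
    simp [hcon]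
  · intro j
    have h1 := hgsum (T (x j))
    rw [hg (LinearMap.mem_range_self T (x j))] at h1
    exact h1.symm

end form

/-- the embedding of `k[u]` -/
noncomputable def em (k : Type u) [Field k] : k[X] →+* RatFunc (RatFunc (RatFunc k)) :=
  ((bse (RatFunc (RatFunc k)) (RatFunc (RatFunc (RatFunc k)))).comp
    (RatFunc.C : RatFunc k →+* RatFunc (RatFunc k))).comp (algebraMap k[X] (RatFunc k))

theorem em_inj (k : Type u) [Field k] : Function.Injective (em k) :=
  ((bse (RatFunc (RatFunc k)) (RatFunc (RatFunc (RatFunc k)))).comp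
    (RatFunc.C : RatFunc k →+* RatFunc (RatFunc k))).injective.comp
    (IsFractionRing.injective k[X] (RatFunc k))

/-- the second entries -/
noncomputable def bb (k : Type u) [Field k] : Fin 4 → RatFunc (RatFunc (RatFunc k)) :=
  ![0, bse (RatFunc (RatFunc k)) (RatFunc (RatFunc (RatFunc k))) RatFunc.X,
    pol (RatFunc (RatFunc k)) (RatFunc (RatFunc (RatFunc k))) X, 0]

theorem em_C (k : Type u) [Field k] (d : k) : em k (C d) =
    bse (RatFunc (RatFunc k)) (RatFunc (RatFunc (RatFunc k))) (RatFunc.C (RatFunc.C d)) := by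
  simp only [em, RingHom.comp_apply, RatFunc.algebraMap_C]

theorem main (k : Type u) [Field k] (hk : ¬ IsSumSq (-1 : k)) (d c : k) (hds : IsSumSq d)
    (hd0 : d ≠ 0) (hcs : IsSumSq c) (hc : ¬ ∃ u v w : k, u ≠ 0 ∧ c * u ^ 2 = v ^ 2 + d * w ^ 2) :
    Regular (theForm (em k) (bb k) d c) ∧
      MinimalWeaklyIsotropic (theForm (em k) (bb k) d c) := by
  have hR := rl_of_not hk
  have := charZero_of_rl hR
  have hA := aniA_of_not hR hd0 hds hc
  have hc0 : c ≠ 0 := fun h => hc ⟨1, 0, 0, one_ne_zero, by rw [h]; simp⟩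
  have := charZero_ratFunc k
  have := charZero_ratFunc (RatFunc k)
  have hR3 : Rl (RatFunc (RatFunc (RatFunc k))) := hR.ratFunc.ratFunc.ratFunc
  refine ⟨regular_theForm (em k) (em_inj k) hR3 hds hc0,
      minimal_theForm (em k) (em_inj k) hR3 hds hcs hc0 ?_⟩
  intro n V hV heq p hp hrel
  rw [em_C] at heq
  exact claim3 (E := RatFunc (RatFunc (RatFunc k)))
      (by rw [Module.finrank_self]; exact odd_one) hR hd0 hds hcs hc0 hA
      (fun _ => 1) (bb k) ⟨rfl, rfl⟩ ⟨rfl, rfl⟩ ⟨rfl, rfl⟩ ⟨rfl, rfl⟩ V hV heq p hp hrel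

theorem coef_eq (k : Type u) [Field k] (d c : k) : coef d c = cf (em k) (bb k) d c := by
  have hX : em k X = (RatFunc.C (RatFunc.C (RatFunc.X : RatFunc k)) :
      RatFunc (RatFunc (RatFunc k))) := by
    simp only [em, RingHom.comp_apply, RatFunc.algebraMap_X]
    rfl
  have hC : ∀ a : k, em k (C a) = (RatFunc.C (RatFunc.C (RatFunc.C a : RatFunc k)) :
      RatFunc (RatFunc (RatFunc k))) := by
    intro a
    rw [em_C]
    rfl
  have hx : bse (RatFunc (RatFunc k)) (RatFunc (RatFunc (RatFunc k))) RatFunc.X =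
      (RatFunc.C (RatFunc.X : RatFunc (RatFunc k)) : RatFunc (RatFunc (RatFunc k))) := rfl
  have hz : pol (RatFunc (RatFunc k)) (RatFunc (RatFunc (RatFunc k))) X =
      (RatFunc.X : RatFunc (RatFunc (RatFunc k))) := by
    rw [pol, RingHom.comp_apply, RatFunc.algebraMap_X]
    rfl
  have e0 : cf (em k) (bb k) d c 0 =
      (RatFunc.C (RatFunc.C (RatFunc.X : RatFunc k)) + 1) *
        (RatFunc.C (RatFunc.C (RatFunc.X : RatFunc k)) - 2) := by
    have h1 : cf (em k) (bb k) d c 0 = em k ((X + 1) * (X - 2)) * (1 ^ 2 + em k (C d) * 0 ^ 2) :=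
      rfl
    rw [h1, map_mul, map_add, map_sub, hX, map_one, map_ofNat]
    ring
  have e1 : cf (em k) (bb k) d c 1 = RatFunc.C (RatFunc.C (RatFunc.C c : RatFunc k)) *
      ((RatFunc.C (RatFunc.C (RatFunc.X : RatFunc k)) - 1) *
        (RatFunc.C (RatFunc.C (RatFunc.X : RatFunc k)) - 2)) *
      (1 + RatFunc.C (RatFunc.C (RatFunc.C d : RatFunc k)) *
        RatFunc.C (RatFunc.X : RatFunc (RatFunc k)) ^ 2) := by
    have h1 : cf (em k) (bb k) d c 1 = em k (C c * ((X - 1) * (X - 2))) *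
      (1 ^ 2 + em k (C d) *
        (bse (RatFunc (RatFunc k)) (RatFunc (RatFunc (RatFunc k))) RatFunc.X) ^ 2) := rfl
    rw [h1, hx, map_mul, map_mul, map_sub, map_sub, hX, hC, hC, map_one, map_ofNat]
    ring
  have e2 : cf (em k) (bb k) d c 2 =
      -(3 * (RatFunc.C (RatFunc.C (RatFunc.X : RatFunc k)) *
        (RatFunc.C (RatFunc.C (RatFunc.X : RatFunc k)) - 1))) *
      (1 + RatFunc.C (RatFunc.C (RatFunc.C d : RatFunc k)) *
        (RatFunc.X : RatFunc (RatFunc (RatFunc k))) ^ 2) := by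
    have h1 : cf (em k) (bb k) d c 2 = em k (-(3 * (X * (X - 1)))) *
      (1 ^ 2 + em k (C d) *
        (pol (RatFunc (RatFunc k)) (RatFunc (RatFunc (RatFunc k))) X) ^ 2) := rfl
    rw [h1, hz, map_neg, map_mul, map_mul, map_sub, hX, hC, map_one, map_ofNat]
    ring
  have e3 : cf (em k) (bb k) d c 3 = RatFunc.C (RatFunc.C (RatFunc.C c : RatFunc k)) *
      (RatFunc.C (RatFunc.C (RatFunc.X : RatFunc k)) *
        (RatFunc.C (RatFunc.C (RatFunc.X : RatFunc k)) + 1)) := by
    have h1 : cf (em k) (bb k) d c 3 = em k (C c * (X * (X + 1))) *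
      (1 ^ 2 + em k (C d) * 0 ^ 2) := rfl
    rw [h1, map_mul, map_mul, map_add, hX, hC, map_one]
    ring
  funext i
  fin_cases i
  · exact e0.symm
  · exact e1.symm
  · exact e2.symm
  · exact e3.symm

theorem form_main (k : Type u) [Field k] (hk : ¬ IsSumSq (-1 : k)) (a b : k) (has : IsSumSq a)
    (ha0 : a ≠ 0) (hbs : IsSumSq b) (h : ¬ ∃ u v w : k, u ≠ 0 ∧ b * u ^ 2 = v ^ 2 + a * w ^ 2) :
    Regular (QuadraticMap.weightedSumSquares (Rat3 k) (coef a b)) ∧
      MinimalWeaklyIsotropic (QuadraticMap.weightedSumSquares (Rat3 k) (coef a b)) := by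
  have h1 := main k hk a b has ha0 hbs h
  rw [theForm, ← coef_eq] at h1
  exact h1

theorem four_le (k : Type u) [Field k] (hk : ¬ IsSumSq (-1 : k)) (a b : k) (has : IsSumSq a)
    (ha0 : a ≠ 0) (hbs : IsSumSq b) (h : ¬ ∃ u v w : k, u ≠ 0 ∧ b * u ^ 2 = v ^ 2 + a * w ^ 2) :
    4 ≤ wInv (Rat3 k) := by
  obtain ⟨h1, h2⟩ := form_main k hk a b has ha0 hbs h
  have h3 : ((4 : ℕ) : ℕ∞) ≤ wInv (Rat3 k) := le_sSup ⟨4, _, rfl, h1, h2⟩
  exact_mod_cast h3

theorem real_ratFunc (k : Type u) [Field k] (hk : ¬ IsSumSq (-1 : k)) :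
    ¬ IsSumSq (-1 : RatFunc k) := by
  intro h
  have hR := rl_of_not hk
  have := charZero_of_rl hR
  exact one_ne_zero (hR.ratFunc 1 (-1) IsSumSq.one h (by ring))

theorem pair_zero (k : Type u) [Field k] (hk : ¬ IsSumSq (-1 : k)) (x y : k)
    (h : x ^ 2 + y ^ 2 = 0) : x = 0 ∧ y = 0 := by
  have hR := rl_of_not hk
  have h3 := hR (x ^ 2) (y ^ 2) (by rw [sq]; exact IsSumSq.mul_self _)
    (by rw [sq]; exact IsSumSq.mul_self _) h
  have h4 : y ^ 2 = 0 := by rw [h3, zero_add] at h; exact h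
  exact ⟨pow_eq_zero_iff two_ne_zero |>.1 h3, pow_eq_zero_iff two_ne_zero |>.1 h4⟩

theorem nonpyth (k : Type u) [Field k] (hk : ¬ IsSumSq (-1 : k)) (s : k) (hs : IsSumSq s)
    (hns : ¬ ∃ v : k, s = v ^ 2) : 4 ≤ wInv (Rat3 (RatFunc k)) := by
  have hR := rl_of_not hk
  have := charZero_of_rl hR
  refine four_le (RatFunc k) (real_ratFunc k hk) 1 (RatFunc.X ^ 2 + RatFunc.C s) IsSumSq.one
    one_ne_zero ?_ ?_
  · rw [sq]
    exact (IsSumSq.mul_self _).add (sumSq_map RatFunc.C hs)
  · rintro ⟨u, v, w, hu, h⟩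
    apply Pool.Agent.H43.WB.not_two (pair_zero k hk) s two_ne_zero hns
    refine ⟨v / u, w / u, ?_⟩
    field_simp
    linear_combination h

/-- (1) Let `k` be a real field and let `a`, `b` be sums of squares in `k`, `a ≠ 0`, such that
`⟨1, a, -b⟩` is anisotropic. Then the form
`⟨(u+1)(u-2), b(u-1)(u-2)(1+ax²), -3u(u-1)(1+az²), b u(u+1)⟩` over `k(u)(x)(z)` is regular and
minimal weakly isotropic; so `w(k(u)(x)(z)) ≥ 4`.
(2) `w(K) ≥ 4` for the rational function field `K` in four variables over every real field in which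
some sum of squares is not a square.
(3) `w(K) ≥ 4` for the rational function field `K` in five variables over every real field.
(4) There is a field of characteristic not `2` with `w(K) > 3`. -/
theorem result :
    (∀ (k : Type u) [Field k] (a b : k), ¬ IsSumSq (-1 : k) → IsSumSq a → a ≠ 0 → IsSumSq b →
      (¬ ∃ u v w : k, u ≠ 0 ∧ b * u ^ 2 = v ^ 2 + a * w ^ 2) →
      Regular (QuadraticMap.weightedSumSquares (Rat3 k) (coef a b)) ∧
      MinimalWeaklyIsotropic (QuadraticMap.weightedSumSquares (Rat3 k) (coef a b)) ∧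
      4 ≤ wInv (Rat3 k)) ∧
    (∀ (k : Type u) [Field k], ¬ IsSumSq (-1 : k) →
      (∃ s : k, IsSumSq s ∧ ¬ ∃ v : k, s = v ^ 2) → 4 ≤ wInv (Rat3 (RatFunc k))) ∧
    (∀ (k : Type u) [Field k], ¬ IsSumSq (-1 : k) → 4 ≤ wInv (Rat3 (RatFunc (RatFunc k)))) ∧
    (∃ (K : Type) (_ : Field K), ringChar K ≠ 2 ∧ 3 < wInv K) := by
  refine ⟨fun k _ a b hk has ha0 hbs h =>
    ⟨(form_main k hk a b has ha0 hbs h).1, (form_main k hk a b has ha0 hbs h).2,
      four_le k hk a b has ha0 hbs h⟩, fun k _ hk ⟨s, hs, hns⟩ => nonpyth k hk s hs hns, ?_, ?_⟩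
  · intro k _ hk
    have hR := rl_of_not hk
    have := charZero_of_rl hR
    refine nonpyth (RatFunc k) (real_ratFunc k hk) (1 + RatFunc.X ^ 2) ?_
      (Pool.Agent.H43.WB.not_one two_ne_zero)
    rw [sq]
    exact IsSumSq.one.add (IsSumSq.mul_self _)
  · have hQ : ¬ IsSumSq (-1 : ℚ) := by
      intro h
      have := h.nonneg
      norm_num at this
    have h4 : 4 ≤ wInv (Rat3 (RatFunc ℚ)) := by
      refine nonpyth ℚ hQ 2 ?_ ?_
      · have : (2 : ℚ) = 1 + 1 := by norm_num
        rw [this]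
        exact IsSumSq.one.add IsSumSq.one
      · rintro ⟨v, hv⟩
        have h1 : IsSquare (2 : ℚ) := ⟨v, by rw [hv]; ring⟩
        rw [Rat.isSquare_iff] at h1
        have h2 : IsSquare (2 : ℤ) := by simpa using h1.1
        obtain ⟨r, hr⟩ := h2
        have h3 : r ≤ 1 := by nlinarith
        have h4 : -1 ≤ r := by nlinarith
        interval_cases r <;> omega
    have hch : CharZero (Rat3 (RatFunc ℚ)) := by
      have h0 : CharZero (RatFunc ℚ) := charZero_ratFunc ℚ
      have h1 := charZero_ratFunc (RatFunc ℚ)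
      have h2 := charZero_ratFunc (RatFunc (RatFunc ℚ))
      exact charZero_ratFunc (RatFunc (RatFunc (RatFunc ℚ)))
    refine ⟨Rat3 (RatFunc ℚ), inferInstance, by rw [ringChar.eq_zero]; norm_num, ?_⟩
    refine lt_of_lt_of_le ?_ h4
    exact_mod_cast (by norm_num : (3 : ℕ) < 4)

end Pool.Agent.Results.MP_2416ca_nt.WAtLeastFourGeneral
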